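import Pool.Agent.H97.SD.Targets

/-!
Module NE2 of the project SD on `MP_c62aed_lc`: the numerical inequality for (E2).
-/

set_option autoImplicit false

namespace Pool.Agent.H73.SD.NE2

open Finset Pool.Agent.H97.SD

theorem pow_self_le (s : ℕ) : s ^ s ≤ 3 ^ s * s.factorial := by
  have h1 : (s : ℝ) ^ s / s.factorial ≤ Real.exp s :=
    Real.pow_div_factorial_le_exp (s : ℝ) (Nat.cast_nonneg s) s
  have h2 : Real.exp s ≤ 3 ^ s := by
    rw [← Real.exp_one_pow s]
    exact pow_le_pow_left₀ (Real.exp_pos 1).le (by linarith [Real.exp_one_lt_d9]) s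
  have h3 : (0 : ℝ) < s.factorial := by exact_mod_cast s.factorial_pos
  rw [div_le_iff₀ h3] at h1
  have h4 : (s : ℝ) ^ s ≤ 3 ^ s * s.factorial := by
    calc (s : ℝ) ^ s ≤ Real.exp s * s.factorial := h1
      _ ≤ 3 ^ s * s.factorial := mul_le_mul_of_nonneg_right h2 h3.le
  exact_mod_cast h4

theorem choose_le (M s : ℕ) : M.choose s * s ^ s ≤ (3 * M) ^ s := by
  have h1 : s.factorial * M.choose s ≤ M ^ s := by
    rw [← Nat.descFactorial_eq_factorial_mul_choose]
    exact Nat.descFactorial_le_pow M s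
  calc M.choose s * s ^ s ≤ M.choose s * (3 ^ s * s.factorial) :=
        Nat.mul_le_mul_left _ (pow_self_le s)
    _ = 3 ^ s * (s.factorial * M.choose s) := by ring
    _ ≤ 3 ^ s * M ^ s := Nat.mul_le_mul_left _ h1
    _ = (3 * M) ^ s := (mul_pow 3 M s).symm

theorem lin_le (k : ℕ) (hk : 5 ≤ k) : 72 * (k + 1) ≤ 2 ^ (2 * k) := by
  induction k, hk using Nat.le_induction with
  | base => norm_num
  | succ k hk ih =>
    have : 2 ^ (2 * (k + 1)) = 4 * 2 ^ (2 * k) := by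
      rw [mul_add, pow_add]; norm_num; ring
    rw [this]; omega

theorem geom (p : ℕ) : ∑ s ∈ Icc 1 p, (1 / 8 : ℝ) ^ s ≤ 1 / 7 := by
  have h : ∀ p : ℕ, ∑ s ∈ Icc 1 p, (1 / 8 : ℝ) ^ s = (1 - (1 / 8) ^ p) / 7 := by
    intro p
    induction p with
    | zero => simp
    | succ p ih =>
      rw [Finset.sum_Icc_succ_top (by omega), ih, pow_succ]
      ring
  rw [h p]
  have : (0 : ℝ) ≤ (1 / 8) ^ p := by positivity
  linarith

/-- The main inequality for one `s`. -/
theorem key (A k N s r : ℕ) (hk1 : 3 * A * 2 ^ (48 * A * A) ≤ k) (hk3 : 5 ≤ k)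
    (hA : 1 ≤ A) (hs : s * k ≤ 3 * A * N) (hr : k ≤ 16 * A * A * (r - 2)) :
    72 * (k + 1) * 2 ^ k * s ^ (r - 2) ≤ N ^ (r - 2) := by
  have h1 : 72 * (k + 1) * 2 ^ k ≤ 2 ^ (48 * A * A * (r - 2)) := by
    calc 72 * (k + 1) * 2 ^ k ≤ 2 ^ (2 * k) * 2 ^ k := Nat.mul_le_mul_right _ (lin_le k hk3)
      _ = 2 ^ (3 * k) := by rw [← pow_add]; congr 1; ring
      _ ≤ 2 ^ (48 * A * A * (r - 2)) := by
        apply Nat.pow_le_pow_right (by norm_num)
        calc 3 * k ≤ 3 * (16 * A * A * (r - 2)) := Nat.mul_le_mul_left 3 hr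
          _ = 48 * A * A * (r - 2) := by ring
  have h2 : (3 * A) ^ (r - 2) * (72 * (k + 1) * 2 ^ k * s ^ (r - 2)) ≤
      (3 * A) ^ (r - 2) * N ^ (r - 2) := by
    calc (3 * A) ^ (r - 2) * (72 * (k + 1) * 2 ^ k * s ^ (r - 2)) =
        (72 * (k + 1) * 2 ^ k) * (3 * A) ^ (r - 2) * s ^ (r - 2) := by ring
      _ ≤ 2 ^ (48 * A * A * (r - 2)) * (3 * A) ^ (r - 2) * s ^ (r - 2) :=
        Nat.mul_le_mul_right _ (Nat.mul_le_mul_right _ h1)
      _ = (s * (3 * A * 2 ^ (48 * A * A))) ^ (r - 2) := by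
        rw [mul_pow s, mul_pow (3 * A), ← pow_mul]; ring
      _ ≤ (s * k) ^ (r - 2) := Nat.pow_le_pow_left (Nat.mul_le_mul_left s hk1) _
      _ ≤ (3 * A * N) ^ (r - 2) := Nat.pow_le_pow_left hs _
      _ = (3 * A) ^ (r - 2) * N ^ (r - 2) := mul_pow _ _ _
  exact Nat.le_of_mul_le_mul_left h2 (by positivity)

/-- One term of the sum. -/
theorem term (k N s r : ℕ) (hs : 1 ≤ s) (hr2 : 2 ≤ r) (hrk : r ≤ k)
    (h : 72 * (k + 1) * 2 ^ k * s ^ (r - 2) ≤ N ^ (r - 2)) :
    8 ^ s * (((k + 1) * N).choose s * N.choose s * (2 ^ k * s ^ r * N ^ (k - r)) ^ s *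
      N ^ (k * ((k + 1) * N - s))) ≤ N ^ (k * ((k + 1) * N)) := by
  rcases Nat.lt_or_ge ((k + 1) * N) s with hlt | hle
  · rw [Nat.choose_eq_zero_of_lt hlt]; simp
  · set X : ℕ := 2 ^ k * s ^ r * N ^ (k - r) with hX
    set M : ℕ := (k + 1) * N with hM
    have h1 : 8 * (3 * M) * (3 * N) * X ≤ N ^ k * (s * s) := by
      have e1 : s ^ r = s ^ (r - 2) * (s * s) := by
        rw [← sq, ← pow_add]; congr 1; omega
      have e2 : N ^ k = N ^ (r - 2) * (N * N) * N ^ (k - r) := by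
        rw [← sq, ← pow_add, ← pow_add]; congr 1; omega
      calc 8 * (3 * M) * (3 * N) * X =
          (72 * (k + 1) * 2 ^ k * s ^ (r - 2)) * ((N * N) * N ^ (k - r) * (s * s)) := by
            rw [hX, hM, e1]; ring
        _ ≤ N ^ (r - 2) * ((N * N) * N ^ (k - r) * (s * s)) := Nat.mul_le_mul_right _ h
        _ = N ^ k * (s * s) := by rw [e2]; ring
    have h2 : 8 ^ s * (M.choose s * N.choose s * X ^ s) * (s ^ s * s ^ s) ≤
        N ^ (k * s) * (s ^ s * s ^ s) := by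
      calc 8 ^ s * (M.choose s * N.choose s * X ^ s) * (s ^ s * s ^ s) =
          8 ^ s * ((M.choose s * s ^ s) * (N.choose s * s ^ s)) * X ^ s := by ring
        _ ≤ 8 ^ s * ((3 * M) ^ s * (3 * N) ^ s) * X ^ s :=
          Nat.mul_le_mul_right _ (Nat.mul_le_mul_left _
            (Nat.mul_le_mul (choose_le M s) (choose_le N s)))
        _ = (8 * (3 * M) * (3 * N) * X) ^ s := by
          rw [mul_pow (8 * (3 * M) * (3 * N)) X, mul_pow (8 * (3 * M)) (3 * N),
            mul_pow 8 (3 * M)]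
          ring
        _ ≤ (N ^ k * (s * s)) ^ s := Nat.pow_le_pow_left h1 s
        _ = N ^ (k * s) * (s ^ s * s ^ s) := by
          rw [mul_pow, mul_pow, ← pow_mul]
    have h3 : 8 ^ s * (M.choose s * N.choose s * X ^ s) ≤ N ^ (k * s) :=
      Nat.le_of_mul_le_mul_right h2 (by positivity)
    calc 8 ^ s * (M.choose s * N.choose s * X ^ s * N ^ (k * (M - s))) =
        8 ^ s * (M.choose s * N.choose s * X ^ s) * N ^ (k * (M - s)) := by ring
      _ ≤ N ^ (k * s) * N ^ (k * (M - s)) := Nat.mul_le_mul_right _ h3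
      _ = N ^ (k * M) := by
        rw [← pow_add, ← mul_add]; congr 2; omega

theorem pf_NE2 : P_NE2 := by
  intro A hA
  refine ⟨3 * A * 2 ^ (48 * A * A) + 32 * A * A + 5, ?_⟩
  intro k N hk hkN
  have hk1 : 3 * A * 2 ^ (48 * A * A) ≤ k := by omega
  have hk2 : 32 * A * A ≤ k := by omega
  have hk3 : 5 ≤ k := by omega
  have hAA : 0 < 4 * A * A := by positivity
  set r : ℕ := k / (4 * A * A) with hr
  have hr8 : 8 ≤ r := by
    rw [hr, Nat.le_div_iff_mul_le hAA]
    calc 8 * (4 * A * A) = 32 * A * A := by ring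
      _ ≤ k := hk2
  have hrk : r ≤ k := Nat.div_le_self _ _
  have hr1 : k < 4 * A * A * (r + 1) := by
    have := Nat.lt_div_mul_add hAA (a := k)
    calc k < k / (4 * A * A) * (4 * A * A) + 4 * A * A := this
      _ = 4 * A * A * (r + 1) := by rw [hr]; ring
  have hr2 : k ≤ 16 * A * A * (r - 2) := by
    obtain ⟨t, ht⟩ : ∃ t, r = t + 2 := ⟨r - 2, by omega⟩
    have e1 : r - 2 = t := by omega
    rw [e1]
    rw [ht] at hr1
    have e2 : 4 * A * A * (t + 2 + 1) = 4 * A * A * t + 12 * (A * A) := by ring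
    have e3 : 16 * A * A * t = 4 * (4 * A * A * t) := by ring
    have e4 : 32 * A * A = 32 * (A * A) := by ring
    rw [e2] at hr1; rw [e3]; rw [e4] at hk2
    omega
  have hN : 0 < N := by omega
  set T : ℕ := N ^ (k * ((k + 1) * N)) with hT
  have hTpos : (0 : ℝ) < T := by
    have : 0 < T := by rw [hT]; positivity
    exact_mod_cast this
  have hterm : ∀ s ∈ Icc 1 (2 * A * N / k + 1),
      ((((k + 1) * N).choose s * N.choose s * (2 ^ k * s ^ r * N ^ (k - r)) ^ s *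
        N ^ (k * ((k + 1) * N - s)) : ℕ) : ℝ) ≤ T * (1 / 8) ^ s := by
    intro s hs
    rw [Finset.mem_Icc] at hs
    have hsk : s * k ≤ 3 * A * N := by
      calc s * k ≤ (2 * A * N / k + 1) * k := Nat.mul_le_mul_right k hs.2
        _ = 2 * A * N / k * k + k := by ring
        _ ≤ 2 * A * N + k := Nat.add_le_add_right (Nat.div_mul_le_self _ _) k
        _ ≤ 2 * A * N + A * N := Nat.add_le_add_left (hkN.trans (Nat.le_mul_of_pos_left N hA)) _
        _ = 3 * A * N := by ring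
    have h := term k N s r hs.1 (by omega) hrk (key A k N s r hk1 hk3 hA hsk hr2)
    have h' : (8 : ℝ) ^ s * ((((k + 1) * N).choose s * N.choose s *
        (2 ^ k * s ^ r * N ^ (k - r)) ^ s * N ^ (k * ((k + 1) * N - s)) : ℕ) : ℝ) ≤ T := by
      exact_mod_cast h
    rw [one_div, inv_pow, ← div_eq_mul_inv, le_div_iff₀ (by positivity), mul_comm]
    exact h'
  have hsum : ((∑ s ∈ Icc 1 (2 * A * N / k + 1), ((k + 1) * N).choose s * N.choose s *
      (2 ^ k * s ^ r * N ^ (k - r)) ^ s * N ^ (k * ((k + 1) * N - s)) : ℕ) : ℝ) ≤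
      T * (1 / 7) := by
    rw [Nat.cast_sum]
    refine (Finset.sum_le_sum hterm).trans ?_
    rw [← Finset.mul_sum]
    exact mul_le_mul_of_nonneg_left (geom _) hTpos.le
  have hfin : ((2 * ∑ s ∈ Icc 1 (2 * A * N / k + 1), ((k + 1) * N).choose s * N.choose s *
      (2 ^ k * s ^ r * N ^ (k - r)) ^ s * N ^ (k * ((k + 1) * N - s)) : ℕ) : ℝ) < T := by
    rw [Nat.cast_mul]
    push_cast at hsum ⊢
    linarith
  exact_mod_cast hfin

end Pool.Agent.H73.SD.NE2
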