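import Pool.Agent.H97.SD.Targets

/-!
Module PL of the project SD on `MP_c62aed_lc`: the lower bound, numerically.
-/

set_option autoImplicit false

namespace Pool.Agent.H73.SD

open Finset Pool.Agent.H97.SD

/-- Floor division, lower bound. -/
theorem lt_div_mul {n d : ℕ} (hd : 0 < d) : (n : ℝ) < ((n / d : ℕ) + 1) * d := by
  have h : n < (n / d + 1) * d := by
    have := Nat.lt_div_mul_add hd (a := n)
    rw [add_mul, one_mul]
    exact this
  exact_mod_cast h

/-- Floor division, upper bound. -/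
theorem div_mul_le {n d : ℕ} : ((n / d : ℕ) : ℝ) * d ≤ n := by
  exact_mod_cast Nat.div_mul_le_self n d

/-- Floor division, half of the quotient. -/
theorem half_le {n d : ℕ} (hd : 0 < d) (h : d ≤ n) : (n : ℝ) ≤ 2 * ((n / d : ℕ) * d) := by
  have h1 : n < (n / d) * d + d := Nat.lt_div_mul_add hd
  have h2 : 1 ≤ n / d := (Nat.one_le_div_iff hd).2 h
  have h3 : d ≤ n / d * d := Nat.le_mul_of_pos_left d (by omega)
  have h4 : n ≤ 2 * (n / d * d) := by omega
  exact_mod_cast h4

theorem pf_PL : P_PL := by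
  intro ε A hε hA hεA
  refine ⟨64 * A ^ 5, Nat.mul_pos (by norm_num) (by positivity), ?_⟩
  rintro n w a ha hKw hKn N k p r l S D rfl rfl rfl rfl rfl hD
  have hA0 : 0 < A := by omega
  have hAR : (2 : ℝ) ≤ A := by exact_mod_cast hA
  have haR : (1 : ℝ) ≤ a := by exact_mod_cast ha
  have haA : 0 < a * A := Nat.mul_pos (by omega) hA0
  have hKwR : 64 * (A : ℝ) ^ 5 * a ≤ w := by exact_mod_cast hKw
  have hKnR : 64 * (A : ℝ) ^ 5 * w ≤ n := by exact_mod_cast hKn
  have hDR : 64 * (A : ℝ) ^ 5 * a * D ≤ n * w := by exact_mod_cast hD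
  have hA5 : (1 : ℝ) ≤ (A : ℝ) ^ 5 := one_le_pow₀ (by linarith)
  have hw0 : (0 : ℝ) < w := lt_of_lt_of_le (by positivity) hKwR
  have hn0 : (0 : ℝ) < n := lt_of_lt_of_le (by positivity) hKnR
  have hkw : a * A ≤ w := by
    calc a * A ≤ 64 * A ^ 5 * a := by
          have : A ≤ 64 * A ^ 5 := by
            calc A ≤ A ^ 5 := Nat.le_self_pow (by norm_num) A
              _ ≤ 64 * A ^ 5 := by omega
          nlinarith
      _ ≤ w := hKw
  have hwn : w ≤ n := by
    calc w = 1 * w := (one_mul w).symm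
      _ ≤ 64 * A ^ 5 * w := Nat.mul_le_mul_right w (Nat.mul_pos (by norm_num) (by positivity))
      _ ≤ n := hKn
  have hAn : A ≤ n := by
    calc A ≤ a * A := Nat.le_mul_of_pos_left A (by omega)
      _ ≤ w := hkw
      _ ≤ n := hwn
  -- floors
  set N : ℕ := n / (a * A) with hN
  set k : ℕ := w / (a * A) with hk
  set l : ℕ := n / A with hl
  have hk1 : (w : ℝ) ≤ 2 * (k * (a * A : ℕ)) := half_le haA hkw
  have hk2 : (k : ℝ) * (a * A : ℕ) ≤ w := div_mul_le
  have hN1 : (n : ℝ) < (N + 1) * (a * A : ℕ) := lt_div_mul haA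
  have hN2 : (N : ℝ) * (a * A : ℕ) ≤ n := div_mul_le
  have hl1 : (n : ℝ) ≤ 2 * (l * A) := half_le hA0 hAn
  have hl2 : (l : ℝ) * A ≤ n := div_mul_le
  push_cast at hk1 hk2 hN1 hN2
  have hkbig : 4 * A * A ≤ k := by
    rw [hk, Nat.le_div_iff_mul_le haA]
    calc 4 * A * A * (a * A) = 4 * A ^ 3 * a := by ring
      _ ≤ 64 * A ^ 5 * a := by
        have : A ^ 3 ≤ A ^ 5 := Nat.pow_le_pow_right hA0 (by norm_num)
        have h2 : 4 * A ^ 3 ≤ 64 * A ^ 5 := by omega
        exact Nat.mul_le_mul_right a h2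
      _ ≤ w := hKw
  have hkpos : 0 < k := lt_of_lt_of_le (by positivity) hkbig
  have hkR : (0 : ℝ) < k := by exact_mod_cast hkpos
  set r : ℕ := k / (4 * A * A) with hr
  have hr1 : (k : ℝ) ≤ 2 * (r * (4 * A * A : ℕ)) := half_le (by positivity) hkbig
  have hr2 : (r : ℝ) * (4 * A * A : ℕ) ≤ k := div_mul_le
  push_cast at hr1 hr2
  set p : ℕ := 2 * A * N / k + 1 with hp
  have hp2 : ((2 * A * N / k : ℕ) : ℝ) * k ≤ (2 * A * N : ℕ) := div_mul_le
  push_cast at hp2
  have hpR : (p : ℝ) = ((2 * A * N / k : ℕ) : ℝ) + 1 := by rw [hp]; push_cast; ring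
  have hAR0 : (0 : ℝ) < A := by linarith
  constructor
  · -- the depth
    have h1 : (w : ℝ) ≤ 16 * a * (A : ℝ) ^ 3 * r := by
      have := mul_le_mul_of_nonneg_right hr1 (by positivity : (0 : ℝ) ≤ a * A)
      linarith
    have h2 : (w : ℝ) * n ≤ 32 * a * (A : ℝ) ^ 4 * (r * l) := by
      calc (w : ℝ) * n ≤ (16 * a * (A : ℝ) ^ 3 * r) * (2 * (l * A)) := by
            apply mul_le_mul h1 hl1 hn0.le (by positivity)
        _ = 32 * a * (A : ℝ) ^ 4 * (r * l) := by ring
    have h3 : 64 * (A : ℝ) ^ 5 * a * D ≤ 32 * a * (A : ℝ) ^ 4 * (r * l) := by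
      calc 64 * (A : ℝ) ^ 5 * a * D ≤ n * w := hDR
        _ = w * n := by ring
        _ ≤ _ := h2
    have hc : (0 : ℝ) < 32 * a * (A : ℝ) ^ 4 := by positivity
    have h4 : (2 * A : ℝ) * D ≤ r * l := by
      have : 32 * a * (A : ℝ) ^ 4 * (2 * A * D) ≤ 32 * a * (A : ℝ) ^ 4 * (r * l) := by
        calc 32 * a * (A : ℝ) ^ 4 * (2 * A * D) = 64 * (A : ℝ) ^ 5 * a * D := by ring
          _ ≤ _ := h3
      exact le_of_mul_le_mul_left this hc
    have h5 : (0 : ℝ) < r * l := by
      by_contra hcon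
      have h6 : (r : ℝ) * l ≤ 0 := not_lt.1 hcon
      have h7 : (w : ℝ) * n ≤ 0 := h2.trans (mul_nonpos_of_nonneg_of_nonpos hc.le h6)
      have := mul_pos hw0 hn0
      linarith
    have h8 : (D : ℝ) < r * l := by
      rcases Nat.eq_zero_or_pos D with h0 | h0
      · rw [h0]; simpa using h5
      · have h0R : (0 : ℝ) < D := by exact_mod_cast h0
        have h9 := mul_le_mul_of_nonneg_right hAR h0R.le
        linarith
    exact_mod_cast h8
  · intro hS
    -- the exponents
    have hl3 : (l : ℕ) + 1 ≤ 2 ^ l := Nat.lt_two_pow_self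
    have h1 : 2 ^ ((A - 1) * a * N) ≤
        S * 2 ^ (l + l + N + a * A * (N / A + r * p + r * p)) := by
      calc 2 ^ ((A - 1) * a * N) ≤
          S * (2 ^ l * (l + 1)) * 2 ^ N * 2 ^ (a * A * (N / A + r * p + r * p)) := hS
        _ ≤ S * (2 ^ l * 2 ^ l) * 2 ^ N * 2 ^ (a * A * (N / A + r * p + r * p)) := by
          gcongr
        _ = S * 2 ^ (l + l + N + a * A * (N / A + r * p + r * p)) := by
          rw [pow_add, pow_add, pow_add]; ring
    set T : ℕ := l + l + N + a * A * (N / A + r * p + r * p) with hT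
    have h2 : (2 : ℝ) ^ ((A - 1) * a * N) ≤ S * 2 ^ T := by exact_mod_cast h1
    have h3 : (2 : ℝ) ^ ((((A - 1) * a * N : ℕ) : ℝ) - (T : ℝ)) ≤ S := by
      rw [Real.rpow_sub (by norm_num : (0 : ℝ) < 2), Real.rpow_natCast, Real.rpow_natCast,
        div_le_iff₀ (by positivity)]
      exact h2
    refine le_trans (Real.rpow_le_rpow_of_exponent_le (by norm_num) ?_) h3
    have hA1 : (((A - 1) * a * N : ℕ) : ℝ) = ((A : ℝ) - 1) * a * N := by
      rw [Nat.cast_mul, Nat.cast_mul, Nat.cast_sub (by omega)]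
      simp
    have hNA : ((N / A : ℕ) : ℝ) * A ≤ N := div_mul_le
    have hTR : (T : ℝ) = l + l + N + a * A * ((N / A : ℕ) + r * p + r * p) := by
      rw [hT]; push_cast; ring
    rw [hA1, hTR]
    -- bounds
    have b1 : (a : ℝ) * N ≤ n / A := by
      rw [le_div_iff₀ hAR0]; linarith
    have b2 : (l : ℝ) ≤ n / A := by rw [le_div_iff₀ hAR0]; exact hl2
    have b3 : (N : ℝ) ≤ n / A := by
      have : (N : ℝ) ≤ a * N := le_mul_of_one_le_left (Nat.cast_nonneg N) haR
      linarith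
    have b4 : (a : ℝ) * A * ((N / A : ℕ) : ℝ) ≤ n / A := by
      have : (a : ℝ) * A * ((N / A : ℕ) : ℝ) ≤ a * N := by
        have := mul_le_mul_of_nonneg_left hNA (by linarith : (0 : ℝ) ≤ a)
        linarith
      linarith
    have hrp : (r : ℝ) * p * (4 * A * A) ≤ 2 * A * N + k := by
      rw [hpR]
      have hq0 : (0 : ℝ) ≤ ((2 * A * N / k : ℕ) : ℝ) := Nat.cast_nonneg _
      have e1 : (r : ℝ) * (4 * A * A) * ((2 * A * N / k : ℕ) : ℝ) ≤
          k * ((2 * A * N / k : ℕ) : ℝ) := by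
        apply mul_le_mul_of_nonneg_right _ hq0
        linarith
      linarith
    have b5 : (a : ℝ) * A * (r * p + r * p) ≤ n / A + w := by
      have e1 : (a : ℝ) * A * (r * p + r * p) * A ≤ n + w * A := by
        have e2 : (a : ℝ) * A * (r * p + r * p) * A * 2 =
            a * ((r : ℝ) * p * (4 * A * A)) := by ring
        have e3 : (a : ℝ) * ((r : ℝ) * p * (4 * A * A)) ≤ a * (2 * A * N + k) :=
          mul_le_mul_of_nonneg_left hrp (by linarith)
        have e4 : (a : ℝ) * k ≤ w := by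
          have := mul_le_mul_of_nonneg_left (by linarith : (1 : ℝ) ≤ A)
            (by positivity : (0 : ℝ) ≤ a * k)
          linarith
        have e5 : (w : ℝ) ≤ w * A := le_mul_of_one_le_right hw0.le (by linarith)
        linarith
      have e6 : (a : ℝ) * A * (r * p + r * p) ≤ (n + w * A) / A := by
        rw [le_div_iff₀ hAR0]; exact e1
      have e7 : ((n : ℝ) + w * A) / A = n / A + w := by field_simp
      linarith
    have b6 : (a : ℝ) * A + w ≤ 2 * n / A := by
      rw [le_div_iff₀ hAR0]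
      have e1 : (a : ℝ) * A ≤ w := by exact_mod_cast hkw
      have e2 : (A : ℝ) ≤ A ^ 5 := by
        calc (A : ℝ) = A ^ 1 := (pow_one _).symm
          _ ≤ A ^ 5 := pow_le_pow_right₀ (by linarith) (by norm_num)
      have e3 : (w : ℝ) * A ≤ n := by
        have e4 := mul_le_mul_of_nonneg_left e2 hw0.le
        have e5 : (0 : ℝ) ≤ w * (A : ℝ) ^ 5 := by positivity
        linarith
      have e6 := mul_le_mul_of_nonneg_right e1 hAR0.le
      linarith
    have b7 : (n : ℝ) - a * A ≤ a * A * N := by linarith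
    have b8 : 8 * (n : ℝ) / A ≤ ε * n := by
      rw [div_le_iff₀ hAR0]
      have := mul_le_mul_of_nonneg_right hεA hn0.le
      linarith
    have b9 : ((A : ℝ) - 1) * a * N = a * A * N - a * N := by ring
    have b10 : (a : ℝ) * A * (((N / A : ℕ) : ℝ) + r * p + r * p) =
        a * A * ((N / A : ℕ) : ℝ) + a * A * (r * p + r * p) := by ring
    have b11 : 8 * (n : ℝ) / A = 8 * (n / A) := by ring
    have b12 : 2 * (n : ℝ) / A = 2 * (n / A) := by ring
    rw [b9, b10]
    linarith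

end Pool.Agent.H73.SD
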